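import Pool.Agent.RGP.Main

set_option autoImplicit false

/-!
# MP_e2ae37_co: the values `o(r,k)` are at most locally non-monotone

For all `r ≥ 3` and `2 ≤ k ≤ r - 2` one has `o(r,k-1) ≥ min(o(r,k), o(r,k+1))`. Definitions:
`Pool/Agent/RGP/Defs.lean`.
-/

namespace Pool.Agent.Results.MP_e2ae37_co.NoTwoSkips

open Pool.Agent.RGP

theorem result : ∀ r k : ℕ, 3 ≤ r → 2 ≤ k → k ≤ r - 2 →
    min (o r k) (o r (k + 1)) ≤ o r (k - 1) := by
  intro r k _ hk hkr
  exact main r k (by omega) (by omega)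

end Pool.Agent.Results.MP_e2ae37_co.NoTwoSkips
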